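import Mathlib
import Pool.Agent.Helper72K9.BBP.Frac
import Pool.Agent.Helper72K9.BBP.CoreLog

open Finset Polynomial

namespace Pool.Agent.Results.MP_57632f_nt.NoDegreeOneBBPFormula

open Pool.Agent.Helper72K9.BBP

/-- A real number is totally real if it is algebraic and all its conjugates are real. -/
def TotallyReal (a : ℝ) : Prop :=
  IsAlgebraic ℚ a ∧ ∀ z : ℂ, Polynomial.aeval z (minpoly ℚ a) = 0 → z.im = 0

theorem TotallyReal.mem {a : ℝ} (ha : TotallyReal a) : ∃ q : QB, q ∈ CMF ∧ (q : ℂ) = (a : ℂ) := by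
  have halg : IsAlgebraic ℚ (a : ℂ) := ha.1.algebraMap
  refine ⟨mkQ (a : ℂ) halg, ?_, rfl⟩
  obtain ⟨q, hq⟩ : ∃ q : QB, q = mkQ (a : ℂ) halg := ⟨_, rfl⟩
  rw [← hq]
  have hqa : (q : ℂ) = (a : ℂ) := by rw [hq]; rfl
  have hroot : aeval q (minpoly ℚ a) = 0 := by
    have h1 : aeval (algebraMap ℝ ℂ a) (minpoly ℚ a) = 0 := by
      rw [aeval_algebraMap_apply, minpoly.aeval, map_zero]
    have h2 : algebraMap QB ℂ (aeval q (minpoly ℚ a)) = 0 := by
      rw [← aeval_algebraMap_apply]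
      change aeval ((q : ℂ)) (minpoly ℚ a) = 0
      rw [hqa]
      exact h1
    exact (algebraMap QB ℂ).injective (h2.trans (map_zero _).symm)
  rw [mem_CMF]
  intro σ
  have h3 : aeval (σ q) (minpoly ℚ a) = 0 := by
    have := aeval_algHom_apply (σ : QB →ₐ[ℚ] QB) q (minpoly ℚ a)
    rw [hroot, map_zero] at this
    exact this
  have h4 : aeval ((σ q : QB) : ℂ) (minpoly ℚ a) = 0 := by
    change aeval (algebraMap QB ℂ (σ q)) (minpoly ℚ a) = 0
    rw [aeval_algebraMap_apply, h3, map_zero]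
  have h5 := ha.2 _ h4
  have h6 : tau q = q := by
    apply Subtype.ext
    rw [coe_tau, hqa, Complex.conj_ofReal]
  rw [h6]
  apply Subtype.ext
  rw [coe_tau]
  exact (Complex.conj_eq_iff_im.mpr h5).symm

theorem exists_lift (P : ℝ[X]) (hP : ∀ i, TotallyReal (P.coeff i)) :
    ∃ P' : CMF[X], ∀ k : ℕ, (((P'.eval (k : CMF) : CMF) : QB) : ℂ) = ((P.eval (k : ℝ) : ℝ) : ℂ) := by
  have h1 : P.map Complex.ofRealHom ∈ lifts (algebraMap CMF ℂ) := by
    rw [lifts_iff_coeff_lifts]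
    intro i
    obtain ⟨q, hq, hqe⟩ := (hP i).mem
    refine ⟨⟨q, hq⟩, ?_⟩
    rw [coeff_map]
    exact hqe
  obtain ⟨P', hP'⟩ := (mem_lifts _).mp h1
  refine ⟨P', fun k => ?_⟩
  have h2 : (P'.map (algebraMap CMF ℂ)).eval (k : ℂ) = (P.map Complex.ofRealHom).eval (k : ℂ) := by
    rw [hP']
  rw [eval_natCast_map, eval_natCast_map] at h2
  exact h2

theorem reduce (w : ℚ) (hw0 : w ≠ 0) (hw : ‖(w : ℂ)‖ < 1) (n : ℕ) (hn : 0 < n) (r : ℚ) (z : ℤ)
    (hz : (n : ℚ) * r = z) :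
    ∃ (j : ℕ) (c0 c1 : ℚ), 0 < j ∧ j ≤ n ∧
      T (w : ℂ) r = (c0 : ℂ) + (c1 : ℂ) * (S ((w : ℂ) ^ 2) (2 * n) j +
        (w : ℂ) * S ((w : ℂ) ^ 2) (2 * n) (n + j)) := by
  have hnZ : (0 : ℤ) < n := by exact_mod_cast hn
  set j : ℕ := ((-z - 1) % n).toNat + 1 with hj
  have hj0 : 0 ≤ (-z - 1) % (n : ℤ) := Int.emod_nonneg _ hnZ.ne'
  have hjn : (-z - 1) % (n : ℤ) < n := Int.emod_lt_of_pos _ hnZ
  have hjZ : (j : ℤ) = (-z - 1) % n + 1 := by
    rw [hj]; push_cast; rw [Int.toNat_of_nonneg hj0]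
  have hdiv := Int.emod_add_mul_ediv (-z - 1) n
  have hr : r = -(j : ℚ) / n + (((-((-z - 1) / n) : ℤ)) : ℚ) := by
    have hnQ : (n : ℚ) ≠ 0 := by exact_mod_cast hn.ne'
    have h1 : z = -(j : ℤ) - n * ((-z - 1) / n) := by rw [hjZ]; linarith
    have h2 : (z : ℚ) = -(j : ℚ) - n * (((-z - 1) / n : ℤ) : ℚ) := by exact_mod_cast h1
    have h3 : r = (z : ℚ) / n := by rw [← hz]; field_simp
    rw [h3, h2]
    push_cast
    field_simp
    ring
  obtain ⟨c0, c1, h⟩ := T_shift w hw0 hw (-(j : ℚ) / n) (-((-z - 1) / n))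
  rw [← hr, T_eq_S _ n j hn, S_split _ hw] at h
  refine ⟨j, c0, c1 * n, by omega, by omega, ?_⟩
  rw [h]; push_cast; ring

/-- **`π` has no degree-one BBP-type formula in base `10 ^ m` or `-10 ^ m`**, not even up to
logarithms of algebraic numbers. -/
theorem result (m : ℕ) (hm : 1 ≤ m) (ε : ℝ) (hε : ε = 1 ∨ ε = -1)
    (P : ℝ[X]) (hP : ∀ i, TotallyReal (P.coeff i))
    (Q : ℚ[X]) (hQ : Q.Splits) (hQsimple : Q.roots.Nodup) (hQN : ∀ k : ℕ, Q.eval (k : ℚ) ≠ 0)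
    (α β : ℝ) (hα : IsAlgebraic ℚ α) (hβ : TotallyReal β)
    (l : ℕ) (γ ρ : Fin l → ℝ) (hγ : ∀ i, IsAlgebraic ℚ (γ i))
    (hρ : ∀ i, 0 < ρ i ∧ IsAlgebraic ℚ (ρ i))
    (h : ∑' k : ℕ, P.eval (k : ℝ) / ((Q.eval (k : ℚ) : ℚ) : ℝ) * (ε / 10 ^ m) ^ k
      = α + β * Real.pi + ∑ i, γ i * Real.log (ρ i)) :
    β = 0 := by
  classical
  -- the rational argument
  obtain ⟨w, hw0, hwε, hw2, hw⟩ : ∃ w : ℚ, w ≠ 0 ∧ (w : ℝ) = ε / 10 ^ m ∧
      (w : ℂ) ^ 2 = (1 / 10 : ℂ) ^ (2 * m) ∧ ‖(w : ℂ)‖ < 1 := by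
    have hnorm : ∀ w : ℚ, w ^ 2 = (1 / 10) ^ (2 * m) → w ≠ 0 ∧
        (w : ℂ) ^ 2 = (1 / 10 : ℂ) ^ (2 * m) ∧ ‖(w : ℂ)‖ < 1 := by
      intro w hw
      have h1 : (w : ℂ) ^ 2 = (1 / 10 : ℂ) ^ (2 * m) := by
        have := congrArg (fun q : ℚ => (q : ℂ)) hw
        push_cast at this
        exact this
      refine ⟨?_, h1, ?_⟩
      · rintro rfl
        have : (0 : ℚ) < (1 / 10) ^ (2 * m) := by positivity
        rw [← hw] at this
        norm_num at this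
      · have h2 : ‖(w : ℂ)‖ ^ 2 = (1 / 10 : ℝ) ^ (2 * m) := by
          rw [← norm_pow, h1, norm_pow]
          norm_num
        have h3 : (1 / 10 : ℝ) ^ (2 * m) < 1 := pow_lt_one₀ (by norm_num) (by norm_num) (by omega)
        by_contra hcon
        push Not at hcon
        nlinarith
    rcases hε with rfl | rfl
    · refine ⟨1 / 10 ^ m, ?_⟩
      obtain ⟨h1, h2, h3⟩ := hnorm (1 / 10 ^ m) (by
        rw [one_div, one_div, inv_pow, ← pow_mul, inv_pow, mul_comm])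
      exact ⟨h1, by push_cast; rfl, h2, h3⟩
    · refine ⟨-1 / 10 ^ m, ?_⟩
      obtain ⟨h1, h2, h3⟩ := hnorm (-1 / 10 ^ m) (by
        rw [neg_div, neg_sq, one_div, one_div, inv_pow, ← pow_mul, inv_pow, mul_comm])
      exact ⟨h1, by push_cast; rfl, h2, h3⟩
  -- the roots
  have hQ0 : Q ≠ 0 := by
    rintro rfl
    exact hQN 0 (by simp)
  set R : Finset ℚ := Q.roots.toFinset with hR
  have hQprod : ∀ x : ℚ, Q.eval x = Q.leadingCoeff * ∏ r ∈ R, (x - r) := by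
    intro x
    conv_lhs => rw [hQ.eq_prod_roots]
    rw [eval_mul, eval_C, eval_multiset_prod, Multiset.map_map]
    congr 1
    rw [Finset.prod, hR, Multiset.toFinset_val, hQsimple.dedup]
    congr 1
    refine Multiset.map_congr rfl fun r _ => ?_
    simp
  have hRN : ∀ r ∈ R, ∀ k : ℕ, (k : ℚ) ≠ r := by
    intro r hr k hk
    apply hQN k
    rw [hR, Multiset.mem_toFinset, mem_roots hQ0] at hr
    rw [hk]
    exact hr
  obtain ⟨P', hP'⟩ := exists_lift P hP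
  obtain ⟨D, c, hDc⟩ := partial_fractions (K := CMF) R (C ((Q.leadingCoeff : CMF)⁻¹) * P')
  -- the terms
  have hterm : ∀ k : ℕ, ((P.eval (k : ℝ) / ((Q.eval (k : ℚ) : ℚ) : ℝ) * (ε / 10 ^ m) ^ k : ℝ) : ℂ)
      = ((((D.map (algebraMap CMF QB)).eval (k : QB) : QB)) : ℂ) * (w : ℂ) ^ k
        + ∑ r ∈ R, (((c r : CMF) : QB) : ℂ) * ((w : ℂ) ^ k / ((k : ℂ) - (r : ℂ))) := by
    intro k
    have h1 := hDc (k : CMF) (by
      intro r hr hk
      apply hRN r hr k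
      have : ((k : ℚ) : CMF) = (r : CMF) := by rw [← hk]; norm_cast
      exact_mod_cast this)
    have h2 := congrArg (algebraMap CMF ℂ) h1
    rw [eval_mul, eval_C, map_div₀, map_mul, map_add, map_sum, map_prod, map_inv₀, map_ratCast] at h2
    have h3 : (algebraMap CMF ℂ) (P'.eval (k : CMF)) = ((P.eval (k : ℝ) : ℝ) : ℂ) := hP' k
    have h4 : ∀ r : ℚ, (algebraMap CMF ℂ) ((k : CMF) - (r : CMF)) = (k : ℂ) - (r : ℂ) := by
      intro r
      rw [map_sub, map_natCast, map_ratCast]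
    have h5 : ((((D.map (algebraMap CMF QB)).eval (k : QB) : QB)) : ℂ)
        = (algebraMap CMF ℂ) (D.eval (k : CMF)) := by
      rw [eval_natCast_map]
      rfl
    rw [h3] at h2
    simp_rw [h4] at h2
    have h6 : ((Q.eval (k : ℚ) : ℚ) : ℂ) = (Q.leadingCoeff : ℂ) * ∏ r ∈ R, ((k : ℂ) - (r : ℂ)) := by
      rw [hQprod]
      push_cast
      rfl
    have h7 : ((P.eval (k : ℝ) / ((Q.eval (k : ℚ) : ℚ) : ℝ) * (ε / 10 ^ m) ^ k : ℝ) : ℂ)
        = ((P.eval (k : ℝ) : ℝ) : ℂ) / ((Q.eval (k : ℚ) : ℚ) : ℂ) * (w : ℂ) ^ k := by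
      rw [← hwε]
      push_cast
      rfl
    rw [h7, h6, h5]
    have h8 : ((P.eval (k : ℝ) : ℝ) : ℂ) / ((Q.leadingCoeff : ℂ) * ∏ r ∈ R, ((k : ℂ) - (r : ℂ)))
        = (Q.leadingCoeff : ℂ)⁻¹ * ((P.eval (k : ℝ) : ℝ) : ℂ) / ∏ r ∈ R, ((k : ℂ) - (r : ℂ)) := by
      rw [div_mul_eq_div_div]
      ring
    rw [h8, h2, add_mul, sum_mul]
    congr 1
    refine sum_congr rfl fun r _ => ?_
    rw [map_div₀, h4]
    change (((c r : CMF) : QB) : ℂ) / _ * _ = _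
    ring
  have hpoly := poly_sum_mem (w : QB) (by
    change ‖algebraMap QB ℂ (w : QB)‖ < 1
    rw [map_ratCast]; exact hw) (D.map (algebraMap CMF QB))
  have hwQ : (((w : ℚ) : QB) : ℂ) = (w : ℂ) := by
    rw [coe_eq, map_ratCast]
  rw [hwQ] at hpoly
  obtain ⟨⟨A, hA⟩, hsumD⟩ := hpoly
  have htotal : (α : ℂ) + (β : ℂ) * Real.pi + ∑ i, (γ i : ℂ) * ((Real.log (ρ i) : ℝ) : ℂ)
      = (A : ℂ) + ∑ r ∈ R, (((c r : CMF) : QB) : ℂ) * T (w : ℂ) r := by
    have h1 := congrArg (fun x : ℝ => (x : ℂ)) h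
    rw [Complex.ofReal_tsum, tsum_congr hterm,
      hsumD.tsum_add (summable_sum fun r _ => (summable_T (w : ℂ) hw r).mul_left _), hA,
      Summable.tsum_finsetSum (fun r _ => (summable_T (w : ℂ) hw r).mul_left _)] at h1
    simp_rw [tsum_mul_left] at h1
    rw [Complex.ofReal_add, Complex.ofReal_add, Complex.ofReal_mul, Complex.ofReal_sum] at h1
    simp_rw [Complex.ofReal_mul] at h1
    rw [← h1]
    rfl
  -- common denominator
  set n : ℕ := ∏ r ∈ R, r.den with hn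
  have hn0 : 0 < n := Finset.prod_pos fun r _ => r.den_pos
  have hnr : ∀ r ∈ R, ∃ z : ℤ, (n : ℚ) * r = z := by
    intro r hr
    obtain ⟨l, hl⟩ := Finset.dvd_prod_of_mem (fun r : ℚ => r.den) hr
    refine ⟨l * r.num, ?_⟩
    rw [hn, hl]
    push_cast
    have h1 : (r.den : ℚ) * r = r.num := by
      rw [mul_comm]; exact Rat.mul_den_eq_num r
    linear_combination (l : ℚ) * h1
  have hred : ∀ r : ℚ, ∃ (j : ℕ) (c0 c1 : ℚ), r ∈ R → 0 < j ∧ j ≤ n ∧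
      T (w : ℂ) r = (c0 : ℂ) + (c1 : ℂ) * (S ((w : ℂ) ^ 2) (2 * n) j +
        (w : ℂ) * S ((w : ℂ) ^ 2) (2 * n) (n + j)) := by
    intro r
    by_cases hr : r ∈ R
    · obtain ⟨z, hz⟩ := hnr r hr
      obtain ⟨j, c0, c1, h1⟩ := reduce w hw0 hw n hn0 r z hz
      exact ⟨j, c0, c1, fun _ => h1⟩
    · exact ⟨0, 0, 0, fun h => absurd h hr⟩
  choose j c0 c1 hjc using hred
  obtain ⟨βQ, hβC, hβe⟩ := hβ.mem
  have hαalg : IsAlgebraic ℚ (α : ℂ) := hα.algebraMap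
  obtain ⟨αQ, hαe⟩ : ∃ αQ : QB, (αQ : ℂ) = (α : ℂ) := ⟨mkQ _ hαalg, rfl⟩
  have hγalg : ∀ i, IsAlgebraic ℚ (γ i : ℂ) := fun i => (hγ i).algebraMap
  have hρalg : ∀ i, IsAlgebraic ℚ (ρ i : ℂ) := fun i => (hρ i).2.algebraMap
  have hcore := core' (ι := ℚ × Bool) (2 * m) (2 * n) (by omega) (by omega) (R ×ˢ Finset.univ)
    (fun i => if i.2 then n + j i.1 else j i.1) (by
      rintro ⟨r, b⟩ hi
      have hr := (Finset.mem_product.mp hi).1
      have h1 := hjc r hr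
      cases b
      · simp only [Bool.false_eq_true, if_false]; omega
      · simp only [if_true]; omega)
    (fun i => ((c i.1 : CMF) : QB) * ((c1 i.1 : ℚ) : QB) * (if i.2 then (w : QB) else 1)) (by
      rintro ⟨r, b⟩ _
      refine CMF.mul_mem (CMF.mul_mem (c r).2 (SubfieldClass.ratCast_mem CMF _)) ?_
      cases b
      · simp only [Bool.false_eq_true, if_false]; exact CMF.one_mem
      · simp only [if_true]; exact SubfieldClass.ratCast_mem CMF _)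
    (αQ - A - ∑ r ∈ R, ((c r : CMF) : QB) * ((c0 r : ℚ) : QB)) βQ hβC
    ρ (fun i => (hρ i).1) hρalg (fun i => mkQ _ (hγalg i)) (by
      rw [← hw2, sum_product]
      have h1 : ∀ r ∈ R, ∑ b : Bool, (((((c r : CMF) : QB) * ((c1 r : ℚ) : QB) *
          (if b then (w : QB) else 1) : QB)) : ℂ) * S ((w : ℂ) ^ 2) (2 * n)
            (if b then n + j r else j r)
          = (((c r : CMF) : QB) : ℂ) * T (w : ℂ) r - (((c r : CMF) : QB) : ℂ) * (c0 r : ℂ) := by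
        intro r hr
        rw [Fintype.sum_bool, (hjc r hr).2.2]
        simp only [Bool.false_eq_true, if_false, if_true]
        rw [coe_eq, coe_eq, map_mul, map_mul, map_mul, map_mul, map_ratCast, map_ratCast, map_one]
        change (((c r : CMF) : QB) : ℂ) * (c1 r : ℂ) * (w : ℂ) * _ +
          (((c r : CMF) : QB) : ℂ) * (c1 r : ℂ) * 1 * _ = _
        ring
      rw [sum_congr rfl h1, sum_sub_distrib]
      have h2 : ((αQ - A - ∑ r ∈ R, ((c r : CMF) : QB) * ((c0 r : ℚ) : QB) : QB) : ℂ)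
          = (α : ℂ) - (A : ℂ) - ∑ r ∈ R, (((c r : CMF) : QB) : ℂ) * (c0 r : ℂ) := by
        rw [coe_eq, map_sub, map_sub, map_sum]
        change (αQ : ℂ) - (A : ℂ) - _ = _
        rw [hαe]
        congr 1
      have h10 : ∑ i, ((mkQ _ (hγalg i) : QB) : ℂ) * ((Real.log (ρ i) : ℝ) : ℂ)
          = ∑ i, (γ i : ℂ) * ((Real.log (ρ i) : ℝ) : ℂ) := rfl
      rw [h2, hβe, h10]
      linear_combination -htotal)
  have h9 : (β : ℂ) = 0 := by rw [← hβe, hcore]; rfl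
  exact_mod_cast h9

end Pool.Agent.Results.MP_57632f_nt.NoDegreeOneBBPFormula
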