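import Pool.Agent.Helper21K9.PM.Final
import Pool.Agent.H326R2.Pi.Top

/-!
# Digits of the prime multiples of `π`

By a theorem of Wall `π` is normal in base `b` if and only if `p π + y` is, for any prime `p` and any rational `y`. We
study the digits of the prime multiples `2π, 3π, 5π, 7π, 11π, …`.

(1) There are explicitly located places `s` (in every window `[S, 6.05 S + 2.525 log_b X + K]`) after which the digits of
the numbers `p π + y`, `p ≤ X` prime, are uniformly distributed with a power saving, for all real `y`; consequently for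
all but few primes `p ≤ X` all blocks of `k` digits have the right frequency in the window of length `L` of the digits of
`p π + y` after the place `s`, up to `L = c log X`.

(2) For every irrational number `x`, all but few of the primes `p ≤ X` (a power saving) are such that all blocks of `k`
digits occur infinitely often in `p x + y`.

(3) (Mahler's theorem for primes.) For every irrational number `x`, every real `y` and every block of `k` digits there is
a prime `p ≤ K b^(41 (k+1))` such that the block occurs infinitely often in `p x + y`.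

The proof: by an argument with consecutive approximations (starting files, `Pool.Agent.TH869.LPD.run`) there are places
`s` such that no `u ≤ √X` makes `u b^s x` close to an integer, so that the numbers `h b^s x`, `h` small, have rational
approximations with denominators between `X^(1/4)` and `O(b √X)`; then Vaughan's identity (starting files,
`Pool.Agent.H373R2.T7.block_lin`) bounds the exponential sums over the primes.
-/

set_option autoImplicit false

open Finset

namespace Pool.Agent.Results.MP_57632f_nt.PrimeMultiplesOfPi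

/-- the word of `k` digits in base `b` with the value `W` (its digits are those of `W < b ^ k`, with
leading zeros) stands in `y` right after the `j`-th digit -/
def Stands (b k W : ℕ) (y : ℝ) (j : ℕ) : Prop :=
  ⌊(b : ℝ) ^ (j + k) * y⌋ % ((b : ℤ) ^ k) = (W : ℤ)

/-- small denominators -/
theorem small_den (x : ℝ) (hx : Irrational x) (n : ℕ) :
    ∃ c : ℝ, 0 < c ∧ ∀ q : ℕ, 1 ≤ q → q < n → ∀ p : ℤ, c ≤ |q * x - p| := by
  induction n with
  | zero => exact ⟨1, one_pos, fun q _ h => absurd h (Nat.not_lt_zero q)⟩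
  | succ n ih =>
    obtain ⟨c, hc, h⟩ := ih
    rcases Nat.eq_zero_or_pos n with hn | hn
    · exact ⟨1, one_pos, fun q h1 h2 => by omega⟩
    · have hirr : Irrational ((n : ℝ) * x) := hx.natCast_mul (by omega)
      have hpos : 0 < |(n : ℝ) * x - round ((n : ℝ) * x)| := by
        rw [abs_pos, sub_ne_zero]
        exact hirr.ne_int _
      refine ⟨min c |(n : ℝ) * x - round ((n : ℝ) * x)|, lt_min hc hpos, fun q h1 h2 p => ?_⟩
      rcases Nat.lt_succ_iff_lt_or_eq.1 h2 with h3 | h3
      · exact (min_le_left _ _).trans (h q h1 h3 p)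
      · rw [h3]
        exact (min_le_right _ _).trans (round_le _ _)

/-- the irrationality measure of `π` for all denominators -/
theorem pi_measure : ∃ c : ℝ, 0 < c ∧ ∀ q : ℕ, 1 ≤ q → ∀ p : ℤ,
    c ≤ (q : ℝ) ^ (5.05 : ℝ) * |q * Real.pi - p| := by
  obtain ⟨q0, hq0⟩ := Pool.Agent.H326R2.Pi.main
  obtain ⟨c, hc, hsm⟩ := small_den Real.pi irrational_pi q0
  refine ⟨min c 1, lt_min hc one_pos, fun q hq p => ?_⟩
  have hqR : (1 : ℝ) ≤ q := by exact_mod_cast hq
  have hq0R : (0 : ℝ) < q := by linarith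
  rcases lt_or_ge q q0 with h | h
  · refine (min_le_left _ _).trans ((hsm q hq h p).trans ?_)
    have h1 : (1 : ℝ) ≤ (q : ℝ) ^ (5.05 : ℝ) := Real.one_le_rpow hqR (by norm_num)
    nlinarith [abs_nonneg ((q : ℝ) * Real.pi - p)]
  · refine (min_le_right _ _).trans ?_
    have h1 := hq0 q h p
    have e1 : |Real.pi - p / q| = |q * Real.pi - p| / q := by
      rw [← abs_of_pos hq0R, ← abs_div, abs_of_pos hq0R]
      congr 1
      field_simp
    rw [e1, le_div_iff₀ hq0R] at h1
    have h2 : (1 : ℝ) = (q : ℝ) ^ (5.05 : ℝ) * ((q : ℝ) ^ (-(6.05 : ℝ)) * q) := by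
      have e2 : (q : ℝ) ^ (-(6.05 : ℝ)) * q = (q : ℝ) ^ (-(5.05 : ℝ)) := by
        rw [show (-(5.05 : ℝ)) = -(6.05 : ℝ) + 1 by norm_num, Real.rpow_add hq0R, Real.rpow_one]
      rw [e2, ← Real.rpow_add hq0R]
      norm_num
    rw [h2]
    exact mul_le_mul_of_nonneg_left h1 (by positivity)

/-- **Digits of the prime multiples of `π`.** There is a constant `K` such that:
(1) for every base `b ≥ 2`, all `X ≥ 2` and `S` there is a place `s` with
`S ≤ s ≤ 6.05 S + 2.525 log_b X + K` such that for every real `y`: (a) for all `0 ≤ u ≤ v ≤ 1` the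
number of primes `p ≤ X` with `u ≤ {b ^ s (p π + y)} < v` is `(v - u) π(X)` up to an error of
`K √b X ^ (39 / 40)`; (b) if `1 ≤ k ≤ L` and `b ^ L √b ≤ X ^ (1 / 80)`, then for `0 < ε ≤ 1` all but at
most `K k b ^ k exp (- ε² ⌊(L + 1 - k) / k⌋ / 4) π(X)` of the primes `p ≤ X` are such that every
word of `k` digits stands in `p π + y` right after the `(s + j)`-th digit for
`(L + 1 - k) / b ^ k` of the numbers `j < L + 1 - k`, up to an error of `ε (L + 1 - k) + k`;
(2) for every irrational number `x` (in particular `x = π`), all `b ≥ 2`, `k, X ≥ 1` and real `y`,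
all but at most `K b ^ k (b ^ 40 / X) ^ (1 / (160 k b ^ k log b)) π(X)` of the primes `p ≤ X` are
such that every word of `k` digits in base `b` occurs infinitely often in `p x + y`;
(3) for every irrational number `x`, all `b ≥ 2`, real `y` and every word of `k` digits in base `b`
there is a prime `p ≤ K b ^ (41 (k + 1))` such that the word occurs infinitely often in
`p x + y`. -/
theorem result : ∃ K : ℝ,
    (∀ b X S : ℕ, 2 ≤ b → 2 ≤ X → ∃ s : ℕ, S ≤ s ∧
      (s : ℝ) ≤ 6.05 * S + 2.525 * (Real.log X / Real.log b) + K ∧ ∀ y : ℝ,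
      (∀ u v : ℝ, 0 ≤ u → u ≤ v → v ≤ 1 →
        |({p : ℕ | p.Prime ∧ p ≤ X ∧ u ≤ Int.fract ((b : ℝ) ^ s * (p * Real.pi + y)) ∧
          Int.fract ((b : ℝ) ^ s * (p * Real.pi + y)) < v}.ncard : ℝ) -
            (v - u) * Nat.primeCounting X| ≤ K * √b * (X : ℝ) ^ (39 / 40 : ℝ)) ∧
      (∀ k L : ℕ, 1 ≤ k → k ≤ L → (b : ℝ) ^ L * √b ≤ (X : ℝ) ^ (1 / 80 : ℝ) →
        ∀ ε : ℝ, 0 < ε → ε ≤ 1 →
        ({p : ℕ | p.Prime ∧ p ≤ X ∧ ∃ W < b ^ k, ε * (L + 1 - k : ℕ) + k <
          |({j : ℕ | j < L + 1 - k ∧ Stands b k W (p * Real.pi + y) (s + j)}.ncard : ℝ) -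
            (L + 1 - k : ℕ) / (b : ℝ) ^ k|}.ncard : ℝ)
          ≤ K * k * (b : ℝ) ^ k * Real.exp (-(ε ^ 2 / 4) * ((L + 1 - k) / k : ℕ)) *
            Nat.primeCounting X)) ∧
    (∀ x : ℝ, Irrational x → ∀ b k X : ℕ, 2 ≤ b → 1 ≤ k → 1 ≤ X → ∀ y : ℝ,
      ({p : ℕ | p.Prime ∧ p ≤ X ∧
        ∃ W < b ^ k, {j : ℕ | Stands b k W (p * x + y) j}.Finite}.ncard : ℝ) ≤
        K * (b : ℝ) ^ k * ((b : ℝ) ^ 40 / X) ^ (1 / (160 * k * (b : ℝ) ^ k * Real.log b)) *
          Nat.primeCounting X) ∧
    (∀ x : ℝ, Irrational x → ∀ b k W : ℕ, 2 ≤ b → W < b ^ k → ∀ y : ℝ,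
      ∃ p : ℕ, p.Prime ∧ (p : ℝ) ≤ K * (b : ℝ) ^ (41 * (k + 1)) ∧
        {j : ℕ | Stands b k W (p * x + y) j}.Infinite) := by
  obtain ⟨c, hc, hm⟩ := pi_measure
  obtain ⟨K₁, hK₁, h1⟩ := Pool.Agent.Helper21K9.PM.measure_final
  obtain ⟨K₂, hK₂, h2⟩ := Pool.Agent.Helper21K9.PM.inf_final
  obtain ⟨K₃, hK₃, h3⟩ := Pool.Agent.Helper21K9.PM.small_final
  set A : ℝ := |Real.log c| / Real.log 2 + 1 with hA
  have hA0 : 0 ≤ A := by
    have : 0 < Real.log 2 := Real.log_pos (by norm_num)
    positivity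
  have hKK : K₁ ≤ K₁ + K₂ + K₃ + A := by linarith
  refine ⟨K₁ + K₂ + K₃ + A, ?_, ?_, ?_⟩
  · intro b X S hb hX
    obtain ⟨s, hs1, hs2, hs3⟩ := h1 Real.pi 5.05 c (by norm_num) hc hm b X S hb hX
    refine ⟨s, hs1, ?_, fun y => ?_⟩
    · refine hs2.trans ?_
      have e1 : (1 : ℝ) + 5.05 = 6.05 := by norm_num
      have e2 : (5.05 : ℝ) / 2 = 2.525 := by norm_num
      rw [e1, e2]
      linarith
    · obtain ⟨h4, h5⟩ := hs3 y
      refine ⟨fun u v hu huv hv => (h4 u v hu huv hv).trans ?_,
        fun k L hk hkL hL ε hε hε1 => (h5 k L hk hkL hL ε hε hε1).trans ?_⟩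
      · gcongr
      · gcongr
  · intro x hx b k X hb hk hX y
    refine (h2 x hx b k X hb hk hX y).trans ?_
    have hX0 : (0 : ℝ) < X := by exact_mod_cast hX
    gcongr
    linarith
  · intro x hx b k W hb hW y
    obtain ⟨p, hp1, hp2, hp3⟩ := h3 x hx b k W hb hW y
    refine ⟨p, hp1, hp2.trans ?_, ?_⟩
    · gcongr
      linarith
    · rw [Set.infinite_iff_exists_gt]
      intro N
      obtain ⟨j, hj1, hj2⟩ := hp3 (N + 1)
      exact ⟨j, hj2, by omega⟩

end Pool.Agent.Results.MP_57632f_nt.PrimeMultiplesOfPi
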