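import Pool.Agent.Helper12K9.QU.Vk6

/-!
# Digits of the quotients `π / m`

By a theorem of Wall `π` is normal in base `b` if and only if `π / m + y` is, for any `m ≥ 1` and any rational `y`. We
study the digits of the quotients `π / m + y`, `m = 1, 2, 3, …` (and more generally of `x / m + y` for a real number
`x ≠ 0`). Up to the place `log m / log b` the number `x / m` has, up to a bounded number of places, only the digit zero.
We show that after this place all is normal for a long while: for every `0 < θ < 1` there is a `δ > 0` such that for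
almost all `m`, in *every* window of at least `(log m) ^ θ` consecutive digits of `x / m + y` between the place
`log m / log b` and the place `(log m) ^ (1 + δ)`, all words of `k` digits occur with the right frequency, up to `ε`.
The number of the exceptions `m ≤ X` is at most `X exp (-(log X) ^ θ')` for every `θ' < θ`; so `m` may be restricted to the
primes, or to any other set of numbers which is not extremely thin.

The proof: the frequencies in a short block of digits after the place `j` are governed by the exponential sums
`∑ e(h b ^ j x / m)` over `N < m ≤ 2 N`. They are estimated by the inequality of Kusmin and Landau when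
`|h b ^ j x| ≤ N ^ (3 / 2)`, and by Vinogradov's method (double shifts `m ↦ m + u v`, Taylor's formula and Vinogradov's
mean value theorem from the starting files, `Pool.Agent.Y957.VK`) up to `|h b ^ j x| ≤ exp ((log N) ^ (1 + δ))`. The
exceptional sets for short blocks are stretched exponentially small by a large deviation inequality
(`Pool.Agent.TH869.LPD.freqG`).
-/

set_option autoImplicit false

open Finset

namespace Pool.Agent.Results.MP_57632f_nt.QuotientsOfPi

/-- the word of `k` digits in base `b` with the value `W` (its digits are those of `W < b ^ k`, with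
leading zeros) stands in `z` right after the `j`-th digit -/
def Stands (b k W : ℕ) (z : ℝ) (j : ℕ) : Prop :=
  ⌊(b : ℝ) ^ (j + k) * z⌋ % ((b : ℤ) ^ k) = (W : ℤ)

open Classical in
/-- **Normal windows in the quotients of `π`.** Let `0 < θ' < θ < 1`. There is a `δ > 0` such that for every real number
`x ≠ 0` (for example `x = π`), every base `b ≥ 2`, every `k ≥ 1` and every `ε > 0` the following holds for all large `X`
and all real `y`: for all but at most `X exp (-(log X) ^ θ')` of the numbers `m ≤ X`, in every window `[u, v)` with
`log m / log b ≤ u`, `u + (log m) ^ θ ≤ v` and `v ≤ (log m) ^ (1 + δ)` every word of `k` digits in base `b` stands in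
`x / m + y` after `(v - u) / b ^ k` of the places `j ∈ [u, v)`, with an error of at most `ε (v - u)`. -/
theorem result (θ θ' : ℝ) (h0 : 0 < θ') (h1 : θ' < θ) (h2 : θ < 1) :
    ∃ δ : ℝ, 0 < δ ∧ ∀ (x : ℝ) (b k : ℕ) (ε : ℝ), x ≠ 0 → 2 ≤ b → 1 ≤ k → 0 < ε →
      ∃ X₀ : ℕ, ∀ X : ℕ, X₀ ≤ X → ∀ y : ℝ,
        (((Icc 1 X).filter (fun m : ℕ => ¬ ∀ u v W : ℕ, Real.log m / Real.log b ≤ u →
          (u : ℝ) + Real.log m ^ θ ≤ v → (v : ℝ) ≤ Real.log m ^ (1 + δ) → W < b ^ k →
          |(((Ico u v).filter (fun j => Stands b k W (x / m + y) j)).card : ℝ) - (v - u) / (b : ℝ) ^ k| ≤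
            ε * (v - u))).card : ℝ) ≤
        X * Real.exp (-(Real.log X ^ θ')) := by
  obtain ⟨δ, hδ, h⟩ := Pool.Agent.Helper12K9.QU.quotients θ θ' h0 h1 h2
  refine ⟨δ, hδ, fun x b k ε hx hb hk hε => ?_⟩
  obtain ⟨X₀, hX₀⟩ := h x b k ε hx hb hk hε
  refine ⟨X₀, fun X hX y => ?_⟩
  refine le_trans ?_ (hX₀ X hX y)
  apply Nat.cast_le.2
  apply card_le_card
  intro m hm
  rw [mem_filter] at hm ⊢
  refine ⟨hm.1, ?_⟩
  by_contra hcon
  apply hm.2
  intro u v W h3 h4 h5 h6
  by_contra h7
  rw [not_le] at h7
  exact hcon ⟨u, v, W, h3, h4, h5, h6, h7⟩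

end Pool.Agent.Results.MP_57632f_nt.QuotientsOfPi
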