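import Pool.Agent.Helper20K9.Tr6

/-!
# Digits of the rational translates of `π`

By Wall's theorem `π` is normal in base `b` if and only if `m (π + c / d)` is, for all (one) positive integers `m`, `d`
and integers `c`. We prove, for every real number `x`, that almost all of the `d` numbers `x + c / d`, `0 ≤ c < d`, are
close to normal, uniformly for all windows up to an exponential length in `d`, and together with all their small
multiples. Without averaging over `c` we prove that `x + y` is close to normal at all places, for a number `y` whose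
expansion is the concatenation of long pieces of the expansions of fractions with one fixed denominator.

The proof: after any place the `d` numbers `b^n m (x + c / d)` are equally spaced modulo `1`, so that all words of
`log_b d` digits are equally frequent there (up to a factor `2`), and few of them have wrong frequencies of short words;
for given `x` the bad windows of `x + c / d` are counted in mean over `c` for all dyadic lengths.
-/

set_option autoImplicit false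

open Finset

namespace Pool.Agent.Results.MP_57632f_nt.RationalTranslatesOfPi

/-- the word of `k` digits in base `b` with the value `W` (its digits are those of `W < b ^ k`, with
leading zeros) stands in `y` right after the `j`-th digit -/
def Stands (b k W : ℕ) (y : ℝ) (j : ℕ) : Prop :=
  ⌊(b : ℝ) ^ (j + k) * y⌋ % ((b : ℤ) ^ k) = (W : ℤ)

/-- Every word of `k` digits stands in `y` after the right proportion `b ^ (-k)`, up to an error of
`ε`, of the `N` places `s, s + 1, …, s + N - 1`. -/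
def Near (b k : ℕ) (ε : ℝ) (y : ℝ) (s N : ℕ) : Prop :=
  ∀ W < b ^ k, |({j : ℕ | j < N ∧ Stands b k W y (s + j)}.ncard : ℝ) - N / (b : ℝ) ^ k| ≤ ε * N

lemma near_iff (b k : ℕ) (ε : ℝ) (y : ℝ) (s N : ℕ) :
    Near b k ε y s N ↔ Pool.Agent.Helper20K9.Tr.Near b k ε y s N := by
  classical
  have h : ∀ W, {j : ℕ | j < N ∧ Stands b k W y (s + j)}.ncard =
      Pool.Agent.Helper20K9.Tr.cnt b k W y s N := by
    intro W
    unfold Pool.Agent.Helper20K9.Tr.cnt
    rw [← Set.ncard_coe_finset]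
    congr 1
    ext j
    rw [Set.mem_ofPred_eq, mem_coe, mem_filter, mem_range]
    rfl
  unfold Near Pool.Agent.Helper20K9.Tr.Near
  simp only [h]

lemma near_mono {b k : ℕ} {ε ε' : ℝ} (h : ε ≤ ε') {y : ℝ} {s N : ℕ} (hn : Near b k ε y s N) :
    Near b k ε' y s N := by
  intro W hW
  refine (hn W hW).trans ?_
  gcongr

/-- **Digits of the rational translates of `π`.** Let `b ≥ 2`, `k ≥ 1` and `ε > 0`. There are `δ > 0` and `C` such
that, for every real number `x` (for instance `x = π`):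
(1) for every `d ≥ 1` coprime to `b`, all `s` and all `N₀ ≥ C (1 + log d)`, all but at most `C d ^ (1 - δ)` of the
integers `0 ≤ c < d` have the following property: for all `m ≤ d ^ δ` coprime to `d` and all `N` with
`N₀ ≤ N ≤ exp (d ^ δ) N₀` all words of `k` digits in base `b` have the frequency `b ^ (-k)`, up to an error of `ε`, at
the `N` places after the `s`-th digit of `m (x + c / d)`;
(2) for every large `d` coprime to `b` there is a real number `y`, whose expansion is pieced together from fractions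
`c_i / d`: for some `0 = S_0 < S_1 < S_2 < …` with `S_(i+1) ≥ exp (d ^ δ) S_i` the number `b ^ j y` is congruent modulo
`1` to `b ^ j c_i / d`, up to an error of `b ^ (j - S_(i+1))`, for `S_i ≤ j ≤ S_(i+1)`; such that for all
`N ≥ C (1 + log d)` all words of `k` digits have the frequency `b ^ (-k)`, up to an error of `ε`, at the first `N`
places of `x + y`. -/
theorem result (b k : ℕ) (hb : 2 ≤ b) (hk : 1 ≤ k) (ε : ℝ) (hε : 0 < ε) :
    ∃ δ C : ℝ, 0 < δ ∧ ∀ x : ℝ,
      (∀ d : ℕ, 1 ≤ d → Nat.Coprime b d → ∀ s N₀ : ℕ, C * (1 + Real.log d) ≤ N₀ →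
        ({c : ℕ | c < d ∧ ∃ m : ℕ, (m : ℝ) ≤ (d : ℝ) ^ δ ∧ Nat.Coprime m d ∧ ∃ N : ℕ, N₀ ≤ N ∧
          (N : ℝ) ≤ Real.exp ((d : ℝ) ^ δ) * N₀ ∧ ¬ Near b k ε (m * (x + c / d)) s N}.ncard : ℝ) ≤
          C * (d : ℝ) ^ (1 - δ)) ∧
      (∀ d : ℕ, C ≤ d → Nat.Coprime b d → ∃ (y : ℝ) (c S : ℕ → ℕ), (∀ i, c i < d) ∧ S 0 = 0 ∧
        StrictMono S ∧ (∀ i, Real.exp ((d : ℝ) ^ δ) * S i ≤ S (i + 1)) ∧
        (∀ i j, S i ≤ j → j ≤ S (i + 1) → ∃ h : ℤ,
          |(b : ℝ) ^ j * (y - c i / d) - h| ≤ (b : ℝ) ^ j / (b : ℝ) ^ S (i + 1)) ∧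
        ∀ N : ℕ, C * (1 + Real.log d) ≤ N → Near b k ε (x + y) 0 N) := by
  classical
  obtain ⟨δ₁, hδ₁, hδ₁', C₁, hC₁, h1⟩ := Pool.Agent.Helper20K9.Tr.count b k hb hk (min ε 1)
    (lt_min hε one_pos) (min_le_right _ _)
  obtain ⟨δ₂, hδ₂, C₂, hC₂, d₀, h2⟩ := Pool.Agent.Helper20K9.Tr.concat b k hb hk (min ε 1)
    (lt_min hε one_pos) (min_le_right _ _)
  have hCle : C₁ ≤ max (max C₁ C₂) (d₀ + 1) := (le_max_left _ _).trans (le_max_left _ _)
  have hCle2 : C₂ ≤ max (max C₁ C₂) (d₀ + 1) := (le_max_right _ _).trans (le_max_left _ _)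
  refine ⟨min δ₁ δ₂, max (max C₁ C₂) (d₀ + 1), lt_min hδ₁ hδ₂, fun x =>
    ⟨fun d hd hbd s N₀ hN₀ => ?_, fun d hd hbd => ?_⟩⟩
  · have hdR : (1 : ℝ) ≤ d := by exact_mod_cast hd
    have hlog : 0 ≤ Real.log d := Real.log_nonneg hdR
    have hpow : (d : ℝ) ^ (min δ₁ δ₂) ≤ (d : ℝ) ^ δ₁ :=
      Real.rpow_le_rpow_of_exponent_le hdR (min_le_left _ _)
    have h3 := h1 d hd hbd x s N₀ (by
      refine le_trans ?_ hN₀
      gcongr)
    have h4 : {c : ℕ | c < d ∧ ∃ m : ℕ, (m : ℝ) ≤ (d : ℝ) ^ (min δ₁ δ₂) ∧ Nat.Coprime m d ∧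
        ∃ N : ℕ, N₀ ≤ N ∧ (N : ℝ) ≤ Real.exp ((d : ℝ) ^ (min δ₁ δ₂)) * N₀ ∧
          ¬ Near b k ε (m * (x + c / d)) s N} ⊆
        (((range d).filter (fun c : ℕ => ∃ m : ℕ, (m : ℝ) ≤ (d : ℝ) ^ δ₁ ∧ Nat.Coprime m d ∧
        ∃ N : ℕ, N₀ ≤ N ∧ (N : ℝ) ≤ Real.exp ((d : ℝ) ^ δ₁) * N₀ ∧
          ¬ Pool.Agent.Helper20K9.Tr.Near b k (min ε 1) (m * (x + c / d)) s N) : Finset ℕ) :
            Set ℕ) := by
      rintro c ⟨hc, m, hm1, hm2, N, hN1, hN2, hN3⟩
      rw [mem_coe, mem_filter, mem_range]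
      refine ⟨hc, m, hm1.trans hpow, hm2, N, hN1, hN2.trans (by gcongr), fun hn => hN3 ?_⟩
      exact near_mono (min_le_left _ _) ((near_iff b k _ _ s N).2 hn)
    have h5 := Set.ncard_le_ncard h4 (Finset.finite_toSet _)
    rw [Set.ncard_coe_finset] at h5
    have h6 : (({c : ℕ | c < d ∧ ∃ m : ℕ, (m : ℝ) ≤ (d : ℝ) ^ (min δ₁ δ₂) ∧ Nat.Coprime m d ∧
        ∃ N : ℕ, N₀ ≤ N ∧ (N : ℝ) ≤ Real.exp ((d : ℝ) ^ (min δ₁ δ₂)) * N₀ ∧
          ¬ Near b k ε (m * (x + c / d)) s N}.ncard : ℕ) : ℝ) ≤ C₁ * (d : ℝ) ^ (1 - δ₁) :=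
      (by exact_mod_cast h5 : _ ≤ _).trans h3
    refine h6.trans ?_
    have h7 : (d : ℝ) ^ (1 - δ₁) ≤ (d : ℝ) ^ (1 - min δ₁ δ₂) :=
      Real.rpow_le_rpow_of_exponent_le hdR (by linarith [min_le_left δ₁ δ₂])
    gcongr
  · have hd1 : ((d₀ : ℝ) + 1) ≤ d := (le_max_right _ _).trans hd
    have hd0 : d₀ ≤ d := by
      have : (d₀ : ℝ) ≤ d := by linarith
      exact_mod_cast this
    have hdR : (1 : ℝ) ≤ d := by
      have : (0 : ℝ) ≤ d₀ := Nat.cast_nonneg _
      linarith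
    have hlog : 0 ≤ Real.log d := Real.log_nonneg hdR
    obtain ⟨y, c, S, hc, hS0, hS, hgrow, hclose, hnear⟩ := h2 d hd0 hbd x
    refine ⟨y, c, S, hc, hS0, hS, fun i => ?_, hclose, fun N hN => ?_⟩
    · refine le_trans ?_ (hgrow i)
      have h3 : (d : ℝ) ^ (min δ₁ δ₂) ≤ (d : ℝ) ^ δ₂ :=
        Real.rpow_le_rpow_of_exponent_le hdR (min_le_right _ _)
      gcongr
    · refine near_mono (min_le_left _ _) ((near_iff b k _ _ 0 N).2 (hnear N ?_))
      refine le_trans ?_ hN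
      gcongr

end Pool.Agent.Results.MP_57632f_nt.RationalTranslatesOfPi
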